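import Pool.Agent.Lib.MP_4d240a_al.Oper

set_option autoImplicit false

universe u

namespace Pool.Agent.Lib.MP_4d240a_al

open Polynomial

section
variable (k : Type u) [CommRing k]

/-- operators over the polynomial ring -/
abbrev EE : Type u := Module.End k[X] (V k[X])

noncomputable instance : Ring (EE k) := Module.End.instRing

/-- the example: the algebra generated by `y` and `a` -/
noncomputable def Sk : Subalgebra k (EE k) := Algebra.adjoin k {(pre true : EE k), aa}

variable {k}

theorem algebraMap_eq (r : k) : algebraMap k (EE k) r = (C r : k[X]) • (1 : EE k) := by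
  rw [Algebra.algebraMap_eq_smul_one]
  apply LinearMap.ext
  intro v
  apply Finsupp.ext
  intro w
  show r • (v w) = C r * v w
  rw [Polynomial.smul_eq_C_mul]

theorem y_mem : (pre true : EE k) ∈ Sk k := Algebra.subset_adjoin (by simp)

theorem a_mem : (aa : EE k) ∈ Sk k := Algebra.subset_adjoin (by simp)

theorem b_mem : (pre false : EE k) ∈ Sk k := by
  have h : (pre false : EE k) = 1 - aa * pre true := by
    rw [aa_y]
    apply LinearMap.ext
    intro v
    show pre false v = v - (v - pre false v)
    abel
  rw [h]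
  exact sub_mem (one_mem (Sk k)) (mul_mem a_mem y_mem)

theorem Sk_FF {s : EE k} (hs : s ∈ Sk k) : s ∈ (FF : Submodule k[X] (EE k)) := by
  have key : ∀ T : EE k, T ∈ (FF : Submodule k[X] (EE k)) → s * T ∈ (FF : Submodule k[X] (EE k)) := by
    unfold Sk at hs
    induction hs using Algebra.adjoin_induction with
    | mem x hx =>
      intro T hT
      rcases hx with rfl | hx
      · exact FF_pre true hT
      · rw [Set.mem_singleton_iff] at hx
        rw [hx]
        exact FF_aa hT
    | algebraMap r =>
      intro T hT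
      rw [algebraMap_eq, smul_mul_assoc, one_mul]
      exact Submodule.smul_mem _ _ hT
    | add x y _ _ hx hy =>
      intro T hT
      rw [add_mul]
      exact Submodule.add_mem _ (hx T hT) (hy T hT)
    | mul x y _ _ hx hy =>
      intro T hT
      rw [mul_assoc]
      exact hx _ (hy T hT)
  have := key 1 FF_one
  rwa [mul_one] at this

/-- vectors with constant coefficients -/
def Cst (v : V k[X]) : Prop := ∀ w, ∃ c : k, v w = C c

theorem Cst_pre {v : V k[X]} (hv : Cst v) (c : Bool) : Cst (pre c v) := by
  intro w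
  cases w with
  | nil => exact ⟨0, by rw [pre_nil, C_0]⟩
  | cons d w =>
    by_cases h : c = d
    · subst h
      obtain ⟨r, hr⟩ := hv w
      exact ⟨r, by rw [pre_cons, hr]⟩
    · exact ⟨0, by rw [pre_ne h, C_0]⟩

theorem Cst_sub {v w : V k[X]} (hv : Cst v) (hw : Cst w) : Cst (v - w) := by
  intro u
  obtain ⟨a, ha⟩ := hv u
  obtain ⟨b, hb⟩ := hw u
  exact ⟨a - b, by rw [Finsupp.sub_apply, ha, hb, C_sub]⟩

theorem Sk_Cst {s : EE k} (hs : s ∈ Sk k) : ∀ v : V k[X], Cst v → Cst (s v) := by
  unfold Sk at hs
  induction hs using Algebra.adjoin_induction with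
  | mem x hx =>
    intro v hv
    rcases hx with rfl | hx
    · exact Cst_pre hv true
    · rw [Set.mem_singleton_iff] at hx
      rw [hx, aa_apply]
      have h1 : Cst (tr true v) := fun w => hv (true :: w)
      exact Cst_sub h1 (Cst_pre h1 false)
  | algebraMap r =>
    intro v hv
    rw [algebraMap_eq]
    intro w
    obtain ⟨c, hc⟩ := hv w
    refine ⟨r * c, ?_⟩
    show C r * v w = _
    rw [hc, C_mul]
  | add x y _ _ hx hy =>
    intro v hv w
    obtain ⟨a, ha⟩ := hx v hv w
    obtain ⟨b, hb⟩ := hy v hv w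
    refine ⟨a + b, ?_⟩
    show x v w + y v w = _
    rw [ha, hb, C_add]
  | mul x y _ _ hx hy =>
    intro v hv
    exact hx _ (hy v hv)

/-- evaluation of polynomials over the example -/
noncomputable def hat : (Sk k)[X] →+* EE k :=
  Polynomial.eval₂RingHom' (Sk k).val.toRingHom ((X : k[X]) • (1 : EE k)) (fun s => by
    show (s : EE k) * ((X : k[X]) • (1 : EE k)) = ((X : k[X]) • (1 : EE k)) * (s : EE k)
    rw [mul_smul_comm, smul_mul_assoc, mul_one, one_mul])

theorem hat_apply (F : (Sk k)[X]) :
    hat F = ∑ i ∈ F.support, (X : k[X]) ^ i • (F.coeff i : EE k) := by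
  show Polynomial.eval₂ (Sk k).val.toRingHom ((X : k[X]) • (1 : EE k)) F = _
  rw [Polynomial.eval₂_eq_sum, Polynomial.sum_def]
  refine Finset.sum_congr rfl (fun i _ => ?_)
  rw [_root_.smul_pow, one_pow, mul_smul_comm, mul_one]
  rfl

theorem hat_C (s : Sk k) : hat (C s) = (s : EE k) := by
  show Polynomial.eval₂ (Sk k).val.toRingHom ((X : k[X]) • (1 : EE k)) (C s) = _
  rw [Polynomial.eval₂_C]
  rfl

theorem hat_inj {F : (Sk k)[X]} (h : hat F = 0) : F = 0 := by
  ext1 j
  rw [coeff_zero]
  by_contra hne
  have hj : j ∈ F.support := Polynomial.mem_support_iff.2 hne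
  apply hne
  apply Subtype.ext
  apply Finsupp.lhom_ext'
  intro w
  apply LinearMap.ext_ring
  show (F.coeff j : EE k) (Finsupp.single w 1) = 0
  have hCw : Cst (Finsupp.single w (1 : k[X])) := by
    intro u
    by_cases hu : u = w
    · subst hu; exact ⟨1, by rw [Finsupp.single_eq_same, C_1]⟩
    · exact ⟨0, by rw [Finsupp.single_eq_of_ne hu, C_0]⟩
  ext1 u
  have hc : ∀ i, ∃ c : k, (F.coeff i : EE k) (Finsupp.single w 1) u = C c := fun i =>
    Sk_Cst (F.coeff i).2 _ hCw u
  choose c hc using hc
  have h1 : (hat F) (Finsupp.single w 1) u = 0 := by rw [h]; rfl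
  rw [hat_apply, LinearMap.sum_apply, Finsupp.finsetSum_apply] at h1
  have h2 : ∀ i, ((X : k[X]) ^ i • (F.coeff i : EE k)) (Finsupp.single w 1) u = X ^ i * C (c i) := by
    intro i
    show X ^ i * (F.coeff i : EE k) (Finsupp.single w 1) u = _
    rw [hc]
  simp only [h2] at h1
  have h3 := congrArg (fun p : k[X] => p.coeff j) h1
  simp only [Polynomial.finsetSum_coeff, coeff_zero, coeff_X_pow_mul', coeff_C] at h3
  rw [Finset.sum_eq_single j] at h3
  · rw [hc j]
    simp only [le_refl, if_true, Nat.sub_self] at h3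
    rw [h3, C_0]; rfl
  · intro i _ hij
    split_ifs with ha hb
    · exact absurd (by omega) hij
    · rfl
    · rfl
  · intro hc'; exact absurd hj hc'

theorem hat_FF (F : (Sk k)[X]) : hat F ∈ (FF : Submodule k[X] (EE k)) := by
  rw [hat_apply]
  exact Submodule.sum_mem _ (fun i _ => Submodule.smul_mem _ _ (Sk_FF (F.coeff i).2))

/-- the element `b` -/
noncomputable def eb : Sk k := ⟨pre false, b_mem⟩
/-- the element `a` -/
noncomputable def ea : Sk k := ⟨aa, a_mem⟩
/-- the element `y` -/
noncomputable def ey : Sk k := ⟨pre true, y_mem⟩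

theorem ea_eq : (ea : Sk k) = ea ^ 2 * ey := by
  apply Subtype.ext
  show (aa : EE k) = aa ^ 2 * pre true
  rw [aa_sq_y]

variable [IsDomain k]

theorem aa_pow_ne (m : ℕ) : (aa : EE k) ^ m ≠ 0 := by
  intro h
  have h1 : ((aa : EE k) ^ m) (Finsupp.single (List.replicate m true) 1) = 0 := by rw [h]; rfl
  rw [aa_pow] at h1
  have h2 : (tr true)^[m] (Finsupp.single (List.replicate m true) (1 : k[X])) =
      Finsupp.single [] 1 := by
    clear h1 h
    induction m with
    | zero => rfl
    | succ m ih =>
      rw [Function.iterate_succ_apply]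
      have : tr true (Finsupp.single (List.replicate (m + 1) true) (1 : k[X])) =
          Finsupp.single (List.replicate m true) 1 := by
        ext1 w
        rw [tr_apply, List.replicate_succ]
        by_cases hw : w = List.replicate m true
        · rw [hw, Finsupp.single_eq_same, Finsupp.single_eq_same]
        · rw [Finsupp.single_eq_of_ne hw, Finsupp.single_eq_of_ne]
          intro hc
          exact hw (List.tail_eq_of_cons_eq hc)
      rw [this, ih]
  rw [h2] at h1
  have h3 := congrArg (fun v : V k[X] => v []) h1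
  have h4 : q m (Finsupp.single [] (1 : k[X])) [] = 1 := by
    unfold q
    rw [Finsupp.sub_apply, Finsupp.single_eq_same, Finsupp.smul_apply, pre_nil, smul_zero,
      sub_zero]
  simp only [h4] at h3
  exact one_ne_zero h3

theorem right_left (F G : (Sk k)[X]) (hF : F ≠ 0) (hG : G ≠ 0) (h : F * G = 0) :
    F * C eb = 0 ∧ ∃ m, C (ea ^ m) * G = 0 := by
  have h1 : hat F * hat G = 0 := by rw [← map_mul, h, map_zero]
  obtain ⟨m, I, hI, hm⟩ := inj_pow (hat_FF F) (fun h0 => hF (hat_inj h0))
  have h2 : (aa : EE k) ^ m * hat G = 0 := by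
    apply LinearMap.ext
    intro v
    apply hI
    have := congrArg (fun T : EE k => T v) h1
    rw [hm, mul_assoc] at this
    exact this
  constructor
  · apply hat_inj
    rw [map_mul, hat_C, hm]
    show I * aa ^ m * (pre false : EE k) = 0
    have hm0 : m ≠ 0 := by
      rintro rfl
      rw [pow_zero, one_mul] at h2
      exact hG (hat_inj h2)
    obtain ⟨j, rfl⟩ := Nat.exists_eq_succ_of_ne_zero hm0
    rw [pow_succ, mul_assoc, mul_assoc, aa_b, mul_zero, mul_zero]
  · refine ⟨m, hat_inj ?_⟩
    rw [map_mul, hat_C]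
    exact h2

theorem eb_ne : (eb : Sk k) ≠ 0 := by
  intro h
  have h1 : (pre false : EE k) = 0 := congrArg Subtype.val h
  have h2 := congrArg (fun T : EE k => T (Finsupp.single [] 1) [false]) h1
  have h3 : (pre false : EE k) (Finsupp.single [] 1) [false] = 1 := by
    rw [pre_cons, Finsupp.single_eq_same]
  simp only [h3] at h2
  exact one_ne_zero h2

theorem ea_pow_ne (m : ℕ) : (ea : Sk k) ^ m ≠ 0 := by
  intro h
  apply aa_pow_ne (k := k) m
  have := congrArg Subtype.val h
  exact this

theorem ea_ne (z : Sk k) : (ea : Sk k) ≠ z * ea ^ 2 := by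
  intro h
  have h1 : (aa : EE k) = (z : EE k) * aa ^ 2 := congrArg Subtype.val h
  have h2 : (aa : EE k) (Finsupp.single [true] 1) = 0 := by
    rw [h1, Module.End.mul_apply, aa_pow]
    have : (tr true)^[2] (Finsupp.single [true] (1 : k[X])) = 0 := by
      ext1 w
      show (Finsupp.single [true] (1 : k[X])) (true :: true :: w) = 0
      exact Finsupp.single_eq_of_ne (by simp)
    rw [this]
    simp [q]
  have h3 := congrArg (fun v : V k[X] => v []) h2
  have h4 : (aa : EE k) (Finsupp.single [true] 1) [] = 1 := by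
    rw [aa_apply, Finsupp.sub_apply, tr_apply, pre_nil, sub_zero, Finsupp.single_eq_same]
  simp only [h4] at h3
  exact one_ne_zero h3

end

end Pool.Agent.Lib.MP_4d240a_al
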