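import Pool.Agent.Lib.MP_4d240a_al.Words

set_option autoImplicit false

universe u

namespace Pool.Agent.Lib.MP_4d240a_al

open Polynomial

section
variable {A : Type u} [CommRing A]

/-- the element `a`: remove a left letter `y`, then multiply by `1 - b` -/
noncomputable def aa : Module.End A (V A) := (1 - pre false) * tr true

theorem aa_apply (x : V A) : aa x = tr true x - pre false (tr true x) := rfl

theorem tr_pre_same' (c : Bool) : (tr c : Module.End A (V A)) * pre c = 1 := by
  apply LinearMap.ext; intro x; exact tr_pre_same c x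

theorem tr_pre_ne' {c d : Bool} (h : d ≠ c) : (tr c : Module.End A (V A)) * pre d = 0 := by
  apply LinearMap.ext; intro x; exact tr_pre_ne h x

theorem aa_b : (aa : Module.End A (V A)) * pre false = 0 := by
  unfold aa
  rw [mul_assoc, tr_pre_ne' (by decide), mul_zero]

theorem aa_y : (aa : Module.End A (V A)) * pre true = 1 - pre false := by
  unfold aa
  rw [mul_assoc, tr_pre_same', mul_one]

theorem aa_sq_y : (aa : Module.End A (V A)) ^ 2 * pre true = aa := by
  apply LinearMap.ext
  intro x
  have h1 : aa (pre true x) = x - pre false x := congrArg (fun T : Module.End A (V A) => T x) aa_y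
  have h2 : aa (pre false x) = 0 := congrArg (fun T : Module.End A (V A) => T x) aa_b
  rw [pow_two, Module.End.mul_apply, Module.End.mul_apply, h1, map_sub, h2, sub_zero]

theorem aa_pow (m : ℕ) (x : V A) : (aa ^ m) x = q m ((tr true)^[m] x) := by
  induction m with
  | zero =>
    show x = q 0 x
    unfold q
    simp [dt]
  | succ m ih =>
    rw [pow_succ', Module.End.mul_apply, ih, aa_apply, tr_q, Function.iterate_succ_apply']
    unfold q
    rw [show (dt (m + 1) : A) = 1 from by simp [dt], one_smul]

theorem lam_one : lam (Finsupp.single ([] : List Bool) (1 : A)) = 1 := by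
  rw [lam_single, one_smul]

theorem aa_lam (g : V A) : aa * lam g = lam (tr true g - pre false (tr true g)) + ep g • aa := by
  apply LinearMap.ext
  intro x
  rw [Module.End.mul_apply, aa_apply, tr_lam, map_sub, lam_pre, LinearMap.add_apply,
    LinearMap.sub_apply, LinearMap.smul_apply, aa_apply, map_add, map_smul,
    Module.End.mul_apply, smul_sub]
  abel

/-- the operators `∑ f m * a ^ m` -/
noncomputable def Ph : (ℕ →₀ V A) →ₗ[A] Module.End A (V A) :=
  Finsupp.lsum A (fun m => (LinearMap.mulRight A (aa ^ m)) ∘ₗ lam)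

theorem Ph_single (m : ℕ) (g : V A) : Ph (Finsupp.single m g) = lam g * aa ^ m := by
  unfold Ph
  rw [Finsupp.lsum_single]
  rfl

theorem Ph_range (f : ℕ →₀ V A) (N : ℕ) (hN : f.support ⊆ Finset.range N) :
    Ph f = ∑ m ∈ Finset.range N, lam (f m) * aa ^ m := by
  unfold Ph
  rw [Finsupp.lsum_apply, Finsupp.sum_of_support_subset _ hN]
  · rfl
  · intro i _; simp

theorem Ph_induct {p : Module.End A (V A) → Prop} (h0 : p 0)
    (hadd : ∀ S T, p S → p T → p (S + T)) (hs : ∀ g m, p (lam g * aa ^ m)) (f : ℕ →₀ V A) :
    p (Ph f) := by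
  induction f using Finsupp.induction_linear with
  | zero => rw [map_zero]; exact h0
  | add f g hf hg => rw [map_add]; exact hadd _ _ hf hg
  | single m g => rw [Ph_single]; exact hs g m

/-- the set of such operators -/
noncomputable def FF : Submodule A (Module.End A (V A)) := LinearMap.range Ph

theorem FF_mem (g : V A) (m : ℕ) : lam g * aa ^ m ∈ (FF : Submodule A (Module.End A (V A))) :=
  ⟨Finsupp.single m g, Ph_single m g⟩

theorem FF_one : (1 : Module.End A (V A)) ∈ (FF : Submodule A (Module.End A (V A))) := by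
  have := FF_mem (Finsupp.single ([] : List Bool) (1 : A)) 0
  rwa [lam_one, pow_zero, one_mul] at this

theorem FF_pre (c : Bool) {T : Module.End A (V A)} (hT : T ∈ FF) : pre c * T ∈ FF := by
  obtain ⟨f, rfl⟩ := hT
  refine Ph_induct (p := fun T => pre c * T ∈ FF) ?_ ?_ ?_ f
  · rw [mul_zero]; exact Submodule.zero_mem _
  · intro S T hS hT; rw [mul_add]; exact Submodule.add_mem _ hS hT
  · intro g m
    rw [← mul_assoc, ← lam_pre]
    exact FF_mem _ _

theorem FF_aa {T : Module.End A (V A)} (hT : T ∈ FF) : aa * T ∈ FF := by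
  obtain ⟨f, rfl⟩ := hT
  refine Ph_induct (p := fun T => aa * T ∈ FF) ?_ ?_ ?_ f
  · rw [mul_zero]; exact Submodule.zero_mem _
  · intro S T hS hT; rw [mul_add]; exact Submodule.add_mem _ hS hT
  · intro g m
    rw [← mul_assoc, aa_lam, add_mul, smul_mul_assoc, ← pow_succ']
    refine Submodule.add_mem _ (FF_mem _ _) (Submodule.smul_mem _ _ ?_)
    have := FF_mem (Finsupp.single ([] : List Bool) (1 : A)) (m + 1)
    rwa [lam_one, one_mul] at this

variable [IsDomain A]

/-- If `(∑ f m * a ^ m) v = 0` and `v ≠ 0` then `f 0 = 0`. -/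
theorem star (f : ℕ → V A) (N : ℕ) (v : V A) (hv : v ≠ 0)
    (h : (∑ m ∈ Finset.range N, lam (f m) * aa ^ m : Module.End A (V A)) v = 0) (hN : 0 < N) : f 0 = 0 := by
  classical
  -- the last nonzero iterated transduction
  have hex : ∃ n, (tr true)^[n + 1] v = 0 := by
    obtain ⟨M, hM⟩ := exists_Lt v
    exact ⟨M, by rw [Function.iterate_succ_apply', Lt_iter hM, map_zero]⟩
  set n := Nat.find hex with hn
  have h1 : (tr true)^[n + 1] v = 0 := Nat.find_spec hex
  have h0 : (tr true)^[n] v ≠ 0 := by
    rcases Nat.eq_zero_or_pos n with h | h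
    · rw [h]; exact hv
    · intro hc
      refine Nat.find_min hex (m := n - 1) (by omega) ?_
      rw [show n - 1 + 1 = n by omega]
      exact hc
  have hbig : ∀ m, n + 1 ≤ m → (tr true)^[m] v = 0 := by
    intro m hm
    induction m, hm using Nat.le_induction with
    | base => exact h1
    | succ m _ ih => rw [Function.iterate_succ_apply', ih, map_zero]
  set x : ℕ → V A := fun m => (tr true)^[m] v with hx
  set g : ℕ → V A := fun m => if m < N then f m else 0 with hg
  have hval : vl n x g 0 = 0 := by
    have e1 : (∑ m ∈ Finset.range N, lam (f m) * aa ^ m : Module.End A (V A)) v =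
        ∑ m ∈ Finset.range (N + (n + 1)), lam (g m) (q m (x m)) := by
      rw [LinearMap.sum_apply, ← Finset.sum_subset (s₁ := Finset.range N)
        (Finset.range_subset_range.2 (Nat.le_add_right _ _))]
      · refine Finset.sum_congr rfl (fun m hm => ?_)
        rw [Module.End.mul_apply, aa_pow, hg]
        simp only [if_pos (Finset.mem_range.1 hm)]
        rfl
      · intro m _ hm
        simp only [hg, if_neg (fun h => hm (Finset.mem_range.2 h)), map_zero,
          LinearMap.zero_apply]
    have e2 : vl n x g 0 = ∑ m ∈ Finset.range (N + (n + 1)), lam (g m) (q m (x m)) := by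
      unfold vl
      rw [← Finset.sum_subset (s₁ := Finset.range (n + 1))
        (Finset.range_subset_range.2 (Nat.le_add_left _ _))]
      · refine Finset.sum_congr rfl (fun m _ => ?_)
        simp
      · intro m _ hm
        have : x m = 0 := hbig m (by
          by_contra hc
          exact hm (Finset.mem_range.2 (by omega)))
        rw [this]
        simp [q]
    rw [e2, ← e1, h]
  obtain ⟨M, hM⟩ : ∃ M, ∀ m, g m ∈ Lt (A := A) M := by
    have : ∀ m, ∃ M, g m ∈ Lt (A := A) M := fun m => exists_Lt (g m)
    choose M hM using this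
    refine ⟨(Finset.range N).sup M, fun m => ?_⟩
    by_cases hm : m < N
    · exact Lt_mono (Finset.le_sup (f := M) (Finset.mem_range.2 hm)) (hM m)
    · simp only [hg, if_neg hm]
      exact Submodule.zero_mem _
  have := (key (n := n) (x := x) (fun m => (Function.iterate_succ_apply' _ _ _).symm) h0 h1 M g 0
    hM rfl hval 0 (Nat.zero_le _)).1
  simpa [hg, hN] using this

/-- every nonzero operator in `FF` is an injective operator in `FF` times a power of `a` -/
theorem inj_pow {T : Module.End A (V A)} (hT : T ∈ FF) (h0 : T ≠ 0) :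
    ∃ (k : ℕ) (I : Module.End A (V A)), (∀ v, I v = 0 → v = 0) ∧ T = I * aa ^ k := by
  obtain ⟨f, rfl⟩ := hT
  obtain ⟨N, hN⟩ : ∃ N, f.support ⊆ Finset.range N :=
    ⟨f.support.sup id + 1, fun m hm => Finset.mem_range.2
      (Nat.lt_succ_of_le (Finset.le_sup (f := id) hm))⟩
  rw [Ph_range f N hN] at h0 ⊢
  generalize (f : ℕ → V A) = g at h0
  clear hN
  induction N generalizing g with
  | zero => exact absurd (Finset.sum_range_zero _) h0
  | succ N ih =>
    by_cases hg : g 0 = 0
    · have e : ∑ m ∈ Finset.range (N + 1), lam (g m) * aa ^ m =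
          (∑ m ∈ Finset.range N, lam (g (m + 1)) * aa ^ m) * aa := by
        rw [Finset.sum_range_succ', hg, map_zero, zero_mul, add_zero, Finset.sum_mul]
        refine Finset.sum_congr rfl (fun m _ => ?_)
        rw [pow_succ, mul_assoc]
      rw [e] at h0
      obtain ⟨k, I, hI, hk⟩ := ih (fun m => g (m + 1)) (fun hz => h0 (by rw [hz, zero_mul]))
      refine ⟨k + 1, I, hI, ?_⟩
      rw [e, hk, pow_succ, mul_assoc]
    · refine ⟨0, _, ?_, (by rw [pow_zero, mul_one])⟩
      intro v hv
      by_contra hne
      exact hg (star g (N + 1) v hne hv (Nat.succ_pos _))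

end

end Pool.Agent.Lib.MP_4d240a_al
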