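import Mathlib

set_option autoImplicit false

/-!
The free module on words in two letters, letter transductions, and the key
independence statement.
-/

universe u

namespace Pool.Agent.Lib.MP_4d240a_al

section
variable (A : Type u) [CommRing A]

/-- the free module on words in two letters -/
abbrev V : Type u := List Bool →₀ A

variable {A}

/-- left multiplication by a letter -/
noncomputable def pre (c : Bool) : V A →ₗ[A] V A := Finsupp.lmapDomain A A (List.cons c)

theorem cons_inj (c : Bool) : Function.Injective (List.cons c) := fun _ _ h => List.tail_eq_of_cons_eq h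

/-- removing a left letter -/
noncomputable def tr (c : Bool) : V A →ₗ[A] V A where
  toFun f := Finsupp.comapDomain (List.cons c) f (cons_inj c).injOn
  map_add' _ _ := Finsupp.comapDomain_add _ _ _ _ _
  map_smul' _ _ := Finsupp.comapDomain_smul _ _ _ _

@[simp] theorem tr_apply (c : Bool) (f : V A) (w : List Bool) : tr c f w = f (c :: w) := rfl

theorem pre_cons (c : Bool) (f : V A) (w : List Bool) : pre c f (c :: w) = f w :=
  Finsupp.mapDomain_apply (cons_inj c) f w

theorem pre_ne {c d : Bool} (h : c ≠ d) (f : V A) (w : List Bool) : pre c f (d :: w) = 0 := by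
  apply Finsupp.mapDomain_of_notMem_range
  rintro ⟨u, hu⟩
  exact h (List.head_eq_of_cons_eq hu)

theorem pre_nil (c : Bool) (f : V A) : pre c f [] = 0 := by
  apply Finsupp.mapDomain_of_notMem_range
  rintro ⟨u, hu⟩
  exact List.cons_ne_nil _ _ hu

theorem tr_pre_same (c : Bool) (f : V A) : tr c (pre c f) = f := by
  ext w; rw [tr_apply, pre_cons]

theorem tr_pre_ne {c d : Bool} (h : d ≠ c) (f : V A) : tr c (pre d f) = 0 := by
  ext w; rw [tr_apply, pre_ne h]; rfl

/-- constant term -/
noncomputable def ep : V A →ₗ[A] A := Finsupp.lapply []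

theorem ep_apply (f : V A) : ep f = f [] := rfl

theorem ep_pre (c : Bool) (f : V A) : ep (pre c f) = 0 := pre_nil c f

theorem decomp (f : V A) :
    f = Finsupp.single [] (ep f) + pre true (tr true f) + pre false (tr false f) := by
  ext w
  rw [Finsupp.add_apply, Finsupp.add_apply]
  cases w with
  | nil => rw [pre_nil, pre_nil, Finsupp.single_eq_same, add_zero, add_zero]; rfl
  | cons c w =>
    rw [Finsupp.single_eq_of_ne (by simp), zero_add]
    cases c
    · rw [pre_ne (by decide), pre_cons, zero_add]; rfl
    · rw [pre_cons, pre_ne (by decide), add_zero]; rfl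

/-- left multiplication by a word -/
noncomputable def Wo : List Bool → Module.End A (V A)
  | [] => 1
  | c :: w => pre c * Wo w

/-- left multiplication by an element of the free algebra -/
noncomputable def lam : V A →ₗ[A] Module.End A (V A) := Finsupp.linearCombination A Wo

theorem lam_single (r : A) : lam (Finsupp.single ([] : List Bool) r) = r • (1 : Module.End A (V A)) := by
  unfold lam
  rw [Finsupp.linearCombination_single]
  rfl

theorem lam_pre (c : Bool) (f : V A) : lam (pre c f) = pre c * lam f := by
  unfold lam pre
  rw [Finsupp.lmapDomain_apply, Finsupp.linearCombination_mapDomain]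
  induction f using Finsupp.induction_linear with
  | zero => simp
  | add f g hf hg => rw [map_add, map_add, hf, hg, mul_add]
  | single w r =>
    rw [Finsupp.linearCombination_single, Finsupp.linearCombination_single, mul_smul_comm]
    rfl

theorem lam_decomp (f : V A) :
    lam f = ep f • (1 : Module.End A (V A)) + pre true * lam (tr true f)
      + pre false * lam (tr false f) := by
  conv_lhs => rw [decomp f]
  rw [map_add, map_add, lam_single, lam_pre, lam_pre]

theorem lam_decomp' (f x : V A) :
    lam f x = ep f • x + pre true (lam (tr true f) x) + pre false (lam (tr false f) x) := by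
  conv_lhs => rw [lam_decomp f]
  rfl

theorem tr_lam (f x : V A) : tr true (lam f x) = lam (tr true f) x + ep f • tr true x := by
  rw [lam_decomp' f x, map_add, map_add, map_smul, tr_pre_same, tr_pre_ne (by decide), add_zero,
    add_comm]

/-- elements of degree less than `N` -/
def Lt (N : ℕ) : Submodule A (V A) where
  carrier := {f | ∀ w : List Bool, N ≤ w.length → f w = 0}
  add_mem' := by
    intro f g hf hg w hw
    rw [Finsupp.add_apply, hf w hw, hg w hw, add_zero]
  zero_mem' := fun _ _ => rfl
  smul_mem' := by
    intro r f hf w hw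
    rw [Finsupp.smul_apply, hf w hw, smul_zero]

theorem Lt_tr {N : ℕ} {f : V A} (hf : f ∈ Lt (A := A) (N + 1)) (c : Bool) :
    tr c f ∈ Lt (A := A) N := by
  intro w hw
  rw [tr_apply]
  exact hf _ (by simpa using hw)

theorem Lt_mono {N M : ℕ} (h : N ≤ M) : Lt (A := A) N ≤ Lt M := fun _ hf w hw => hf w (h.trans hw)

theorem Lt_zero {f : V A} (hf : f ∈ Lt (A := A) 0) : f = 0 := by
  ext w; exact hf w (Nat.zero_le _)

theorem exists_Lt (f : V A) : ∃ N, f ∈ Lt (A := A) N := by
  refine ⟨f.support.sup List.length + 1, fun w hw => ?_⟩
  by_contra h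
  have h1 : w ∈ f.support := Finsupp.mem_support_iff.2 h
  have h2 := Finset.le_sup (f := List.length) h1
  omega

theorem Lt_iter {N : ℕ} {f : V A} (hf : f ∈ Lt (A := A) N) : (tr true)^[N] f = 0 := by
  induction N generalizing f with
  | zero => exact Lt_zero hf
  | succ N ih => exact ih (Lt_tr hf true)

/-! ### the key relation -/

/-- `0` for `m = 0` and `1` otherwise -/
def dt (m : ℕ) : A := if m = 0 then 0 else 1

/-- multiplication by `1 - b` for `m > 0` -/
noncomputable def q (m : ℕ) (x : V A) : V A := x - (dt m : A) • pre false x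

theorem tr_q (m : ℕ) (x : V A) : tr true (q m x) = tr true x := by
  unfold q
  rw [map_sub, map_smul, tr_pre_ne (by decide), smul_zero, sub_zero]

variable (n : ℕ) (x : ℕ → V A)

/-- general combinations -/
noncomputable def vl (f : ℕ → V A) (k : ℕ → A) : V A :=
  ∑ m ∈ Finset.range (n + 1), (k m • x m + lam (f m) (q m (x m)))

/-- shifted coefficients -/
noncomputable def sh (f : ℕ → V A) (k : ℕ → A) : ℕ → A
  | 0 => 0
  | m + 1 => k m + ep (f m)

variable {n x}

theorem vl_add (f g : ℕ → V A) (k l : ℕ → A) :
    vl n x f k + vl n x g l = vl n x (f + g) (k + l) := by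
  unfold vl
  rw [← Finset.sum_add_distrib]
  refine Finset.sum_congr rfl (fun m _ => ?_)
  simp only [Pi.add_apply, add_smul, map_add, LinearMap.add_apply]
  abel

theorem vl_smul (r : A) (f : ℕ → V A) (k : ℕ → A) :
    r • vl n x f k = vl n x (r • f) (r • k) := by
  unfold vl
  rw [Finset.smul_sum]
  refine Finset.sum_congr rfl (fun m _ => ?_)
  simp only [Pi.smul_apply, smul_add, map_smul, LinearMap.smul_apply, smul_eq_mul, mul_smul]

theorem vl_neg (f : ℕ → V A) (k : ℕ → A) : vl n x (-f) (-k) = -vl n x f k := by
  have h := vl_smul (n := n) (x := x) (-1) f k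
  have e1 : (-1 : A) • f = -f := by funext m; simp
  have e2 : (-1 : A) • k = -k := by funext m; simp
  rw [e1, e2, neg_smul, one_smul] at h
  exact h.symm

theorem tr_vl (hx : ∀ m, tr true (x m) = x (m + 1)) (hn : x (n + 1) = 0) (f : ℕ → V A)
    (k : ℕ → A) : tr true (vl n x f k) = vl n x (fun m => tr true (f m)) (sh f k) := by
  unfold vl
  have h1 : ∀ m, tr true (k m • x m + lam (f m) (q m (x m))) =
      sh f k (m + 1) • x (m + 1) + lam (tr true (f m)) (q m (x m)) := by
    intro m
    rw [map_add, map_smul, tr_lam, tr_q, hx]
    show _ = (k m + ep (f m)) • x (m + 1) + _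
    rw [add_smul]; abel
  rw [map_sum]
  simp only [h1]
  rw [Finset.sum_add_distrib, Finset.sum_add_distrib]
  congr 1
  rw [Finset.sum_range_succ, hn, smul_zero, add_zero, Finset.sum_range_succ']
  show _ = _ + (0 : A) • x 0
  rw [zero_smul, add_zero]

theorem vl_split (f : ℕ → V A) (k : ℕ → A) (h : ∀ m ≤ n, tr true (f m) = 0) :
    vl n x f k = (∑ m ∈ Finset.range (n + 1), (k m + ep (f m)) • x m)
      + pre false (vl n x (fun m => tr false (f m)) (fun m => -(dt m * ep (f m)))) := by
  unfold vl
  rw [map_sum, ← Finset.sum_add_distrib]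
  refine Finset.sum_congr rfl (fun m hm => ?_)
  have hm' : m ≤ n := by rw [Finset.mem_range] at hm; omega
  rw [lam_decomp' (f m), h m hm', map_zero, LinearMap.zero_apply, map_zero, add_zero, map_add,
    map_smul, add_smul]
  have : ep (f m) • q m (x m) = ep (f m) • x m + (-(dt m * ep (f m))) • pre false (x m) := by
    unfold q
    rw [smul_sub, smul_smul, neg_smul, mul_comm, sub_eq_add_neg]
  rw [this]
  abel

variable [IsDomain A]

theorem base (hx : ∀ m, tr true (x m) = x (m + 1)) (h0 : x n ≠ 0) (hn : x (n + 1) = 0)
    (k : ℕ → A) (hk : ∑ m ∈ Finset.range (n + 1), k m • x m = 0) (m : ℕ) (hm : m ≤ n) :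
    k m = 0 := by
  have hbig : ∀ j, x (n + 1 + j) = 0 := by
    intro j
    induction j with
    | zero => exact hn
    | succ j ih => rw [← add_assoc, ← hx, ih, map_zero]
  have hiter : ∀ j i, (tr true : V A →ₗ[A] V A)^[j] (x i) = x (i + j) := by
    intro j
    induction j with
    | zero => intro i; rfl
    | succ j ih =>
      intro i
      rw [Function.iterate_succ_apply, hx, ih]
      congr 1; omega
  induction m using Nat.strong_induction_on with
  | _ m ih =>
    have h1 : ((tr true : V A →ₗ[A] V A)^(n - m)) (∑ i ∈ Finset.range (n + 1), k i • x i) = 0 := by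
      rw [hk, map_zero]
    rw [map_sum, Finset.sum_eq_single m] at h1
    · rw [map_smul, Module.End.pow_apply, hiter, show m + (n - m) = n by omega] at h1
      exact (smul_eq_zero.1 h1).resolve_right h0
    · intro i hi him
      rw [Finset.mem_range] at hi
      rw [map_smul, Module.End.pow_apply, hiter]
      rcases lt_or_gt_of_ne him with h | h
      · rw [ih i h (by omega), zero_smul]
      · rw [show i + (n - m) = n + 1 + (i + (n - m) - (n + 1)) by omega, hbig, smul_zero]
    · intro h
      exact absurd (Finset.mem_range.2 (by omega)) h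

/-- The key independence statement. -/
theorem key (hx : ∀ m, tr true (x m) = x (m + 1)) (h0 : x n ≠ 0) (hn : x (n + 1) = 0) (N : ℕ) :
    ∀ (f : ℕ → V A) (k : ℕ → A), (∀ m, f m ∈ Lt (A := A) N) → k 0 = 0 → vl n x f k = 0 →
      ∀ m ≤ n, f m = 0 ∧ k m = 0 := by
  induction N with
  | zero =>
    intro f k hf hk0 hv m hm
    have hf0 : ∀ m, f m = 0 := fun m => Lt_zero (hf m)
    refine ⟨hf0 m, base hx h0 hn k ?_ m hm⟩
    rw [← hv]
    unfold vl
    refine Finset.sum_congr rfl (fun m _ => ?_)
    rw [hf0, map_zero, LinearMap.zero_apply, add_zero]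
  | succ N ih =>
    intro f k hf hk0 hv
    -- consequences of a vanishing transduction
    have hD : ∀ (g : ℕ → V A) (l : ℕ → A), (∀ m, g m ∈ Lt (A := A) (N + 1)) → l 0 = 0 →
        tr true (vl n x g l) = 0 →
        vl n x g l = (l n + ep (g n)) • x n
          + pre false (vl n x (fun m => tr false (g m)) (fun m => -(dt m * ep (g m)))) ∧
        (∀ m ≤ n, tr true (g m) = 0) ∧ ∀ m < n, l m + ep (g m) = 0 := by
      intro g l hg hl0 hgl
      rw [tr_vl hx hn] at hgl
      have h1 := ih _ _ (fun m => Lt_tr (hg m) true) rfl hgl
      have h2 : ∀ m ≤ n, tr true (g m) = 0 := fun m hm => (h1 m hm).1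
      have h3 : ∀ m < n, l m + ep (g m) = 0 := fun m hm => (h1 (m + 1) hm).2
      refine ⟨?_, h2, h3⟩
      rw [vl_split g l h2, Finset.sum_range_succ, Finset.sum_eq_zero, zero_add]
      intro m hm
      rw [h3 m (Finset.mem_range.1 hm), zero_smul]
    have hdt0 : ∀ g : ℕ → V A, -((dt 0 : A) * ep (g 0)) = 0 := by
      intro g; simp [dt]
    obtain ⟨e1, e2, e3⟩ := hD f k hf hk0 (by rw [hv, map_zero])
    rw [hv] at e1
    set u := vl n x (fun m => tr false (f m)) (fun m => -(dt m * ep (f m))) with hu
    -- the main point: if the last coefficient does not vanish then `u = 0`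
    have hU : k n + ep (f n) ≠ 0 → ∀ M : ℕ, ∀ (g : ℕ → V A) (l : ℕ → A),
        (∀ m, g m ∈ Lt (A := A) N) → l 0 = 0 → vl n x g l ∈ Lt (A := A) M → vl n x g l = 0 := by
      intro hc M
      have hex : (k n + ep (f n)) • x n = pre false (-u) := by
        rw [map_neg]; exact eq_neg_of_add_eq_zero_left e1.symm
      induction M with
      | zero => intro g l _ _ h; exact Lt_zero h
      | succ M ihM =>
        intro g l hg hl0 ht
        have hgN : ∀ m, g m ∈ Lt (A := A) (N + 1) := fun m => Lt_mono (Nat.le_succ N) (hg m)
        have hgtr : ∀ (c : Bool) m, tr c (g m) ∈ Lt (A := A) N := fun c m => Lt_tr (hgN m) c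
        have hDt : tr true (vl n x g l) = 0 := by
          rw [tr_vl hx hn]
          apply ihM _ _ (hgtr true) rfl
          rw [← tr_vl hx hn]
          exact Lt_tr ht true
        obtain ⟨d1, d2, d3⟩ := hD g l hgN hl0 hDt
        set c := k n + ep (f n) with hcdef
        set d := l n + ep (g n) with hddef
        -- `c • t = b * t'`
        have h1 : c • vl n x g l = pre false (vl n x
            (c • (fun m => tr false (g m)) - d • (fun m => tr false (f m)))
            (c • (fun m => -(dt m * ep (g m))) - d • (fun m => -(dt m * ep (f m))))) := by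
          have h2 : vl n x
            (c • (fun m => tr false (g m)) - d • (fun m => tr false (f m)))
            (c • (fun m => -(dt m * ep (g m))) - d • (fun m => -(dt m * ep (f m)))) =
              c • vl n x (fun m => tr false (g m)) (fun m => -(dt m * ep (g m))) - d • u := by
            rw [sub_eq_add_neg, sub_eq_add_neg, ← vl_add, ← vl_smul, sub_eq_add_neg]
            congr 1
            rw [hu, vl_smul, vl_neg]
          rw [h2, d1, smul_add, smul_smul, mul_comm, ← smul_smul, hex, map_sub, map_smul,
            map_smul, map_neg, smul_neg]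
          abel
        set t' := vl n x
            (c • (fun m => tr false (g m)) - d • (fun m => tr false (f m)))
            (c • (fun m => -(dt m * ep (g m))) - d • (fun m => -(dt m * ep (f m)))) with ht'
        have h3 : t' = c • tr false (vl n x g l) := by
          rw [← map_smul, h1, tr_pre_same]
        have h4 : t' = 0 := by
          apply ihM
          · intro m
            exact Submodule.sub_mem _ (Submodule.smul_mem _ _ (hgtr false m))
              (Submodule.smul_mem _ _ (Lt_tr (hf m) false))
          · show c * -(dt 0 * ep (g 0)) - d * -(dt 0 * ep (f 0)) = 0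
            simp [dt]
          · rw [← ht', h3]
            exact Submodule.smul_mem _ _ (Lt_tr ht false)
        rw [h4, map_zero] at h1
        exact (smul_eq_zero.1 h1).resolve_left hc
    have hc : k n + ep (f n) = 0 := by
      by_contra hc
      obtain ⟨M, hM⟩ := exists_Lt u
      have hu0 : u = 0 := hU hc M _ _ (fun m => Lt_tr (hf m) false) (hdt0 f) hM
      rw [hu0, map_zero, add_zero] at e1
      exact h0 ((smul_eq_zero.1 e1.symm).resolve_left hc)
    rw [hc, zero_smul, zero_add] at e1
    have hu0 : u = 0 := by
      have := tr_pre_same false u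
      rw [← e1, map_zero] at this
      exact this.symm
    have h5 := ih _ _ (fun m => Lt_tr (hf m) false) (hdt0 f) hu0
    intro m hm
    have h6 : k m + ep (f m) = 0 := by
      rcases Nat.lt_or_ge m n with h | h
      · exact e3 m h
      · have : m = n := le_antisymm hm h
        rw [this]; exact hc
    have h7 : ep (f m) = 0 := by
      by_cases hm0 : m = 0
      · subst hm0
        rw [hk0, zero_add] at h6
        exact h6
      · have := (h5 m hm).2
        simp only [dt, if_neg hm0, one_mul, neg_eq_zero] at this
        exact this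
    constructor
    · rw [decomp (f m), h7, e2 m hm, (h5 m hm).1]
      simp
    · rw [h7, add_zero] at h6; exact h6

end

end Pool.Agent.Lib.MP_4d240a_al
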